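import Pool.Agent.Helper95.PM.Stmts
import Pool.Agent.Helper72.PW.PIN

/-!
# PINM: the row PIN with centre `a`
-/

set_option autoImplicit false

namespace Pool.Agent.Helper95.PW

open MeasureTheory Filter

/-- the regularised attraction with centre `a` -/
noncomputable def PINM_W (a : R3) (s : ℝ) (y : R3) : ℝ := pin_U s (y - a)

lemma PINM_smW (a : R3) {s : ℝ} (hs : 0 < s) : ContDiff ℝ (⊤ : ℕ∞) (PINM_W a s) :=
  (pin_smU hs).comp (contDiff_id.sub contDiff_const)

lemma PINM_pds (f : R3 → ℝ) (a : R3) (i : Fin 3) (y : R3) :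
    pd i (fun z => f (z - a)) y = pd i f (y - a) := by
  unfold pd
  rw [fderiv_comp_sub]

lemma PINM_pda (f : R3 → ℝ) (a : R3) (i : Fin 3) (y : R3) :
    pd i (fun z => f (z + a)) y = pd i f (y + a) := by
  unfold pd
  rw [fderiv_comp_add_right]

lemma PINM_pda' (f : R3 → ℝ) (a : R3) (i : Fin 3) :
    pd i (fun z => f (z + a)) = fun z => pd i f (z + a) := by
  funext y
  exact PINM_pda f a i y

lemma PINM_D (g f : R3 → ℝ) (a : R3) :
    pin_D g (fun y => f (y - a)) = fun y => pin_D (fun z => g (z + a)) f (y - a) := by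
  funext y
  unfold pin_D
  simp only [PINM_pds, PINM_pda, sub_add_cancel]

lemma PINM_DD (g : R3 → ℝ) (a : R3) (s : ℝ) (y : R3) :
    pin_D g (pin_D g (PINM_W a s)) y =
      pin_D (fun z => g (z + a)) (pin_D (fun z => g (z + a)) (pin_U s)) (y - a) := by
  have h1 : pin_D g (PINM_W a s) = fun y => pin_D (fun z => g (z + a)) (pin_U s) (y - a) :=
    PINM_D g (pin_U s) a
  rw [h1, PINM_D]

lemma PINM_scale {g : R3 → ℝ} {K R : ℝ} (h : Scale g K R) (a : R3) :
    Scale (fun z => g (z + a)) K R := by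
  refine ⟨h.sm.comp (contDiff_id.add contDiff_const), ?_, ?_, ?_, ?_, ?_⟩
  · exact h.cs.comp_homeomorph (Homeomorph.addRight a)
  · intro i y
    rw [PINM_pda]
    exact h.d1 i _
  · intro i j y
    rw [PINM_pda', PINM_pda (pd j g)]
    exact h.d2 i j _
  · intro i j l y
    rw [PINM_pda', PINM_pda' (pd l g), PINM_pda (pd j (pd l g))]
    exact h.d3 i j l _
  · intro i j l m y
    rw [PINM_pda', PINM_pda' (pd m g), PINM_pda' (pd l (pd m g)), PINM_pda (pd j (pd l (pd m g)))]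
    exact h.d4 i j l m _

lemma PINM_inner {g W : R3 → ℝ} {R : ℝ} {m : Fin 3}
    (h1 : ∀ z, nr z < R → ∀ i, pd i g z = if i = m then 1 else 0)
    (y : R3) (hy : nr y < R) : pin_D g (pin_D g W) y = pd m (pd m W) y := by
  have hO : IsOpen {z : R3 | nr z < R} := isOpen_lt pin_nrc continuous_const
  have h2 : ∀ z, nr z < R → pin_D g W z = pd m W z := by
    intro z hz
    unfold pin_D
    simp [h1 z hz]
  have h3 : pin_D g W =ᶠ[nhds y] pd m W := by
    filter_upwards [hO.mem_nhds hy] with x hx using h2 x hx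
  have h4 : pin_D g (pin_D g W) y = pd m (pin_D g W) y := by
    conv_lhs => unfold pin_D
    simp only [h1 y hy]
    simp only [ite_mul, one_mul, zero_mul, Finset.sum_ite_eq', Finset.mem_univ, if_true]
    rfl
  rw [h4]
  unfold pd at h3 ⊢
  rw [h3.fderiv_eq]

lemma PINM_pt0 {g : Fin 3 → R3 → ℝ} {K R s : ℝ} (hs : 0 < s) (hR : 0 < R)
    (h : ∀ m, Scale (g m) K R)
    (hg : ∀ m y, nr y < R → ∀ i, pd i (g m) y = if i = m then 1 else 0) (y : R3) :
    -(∑ m, 1 / 2 * pin_D (g m) (pin_D (g m) (pin_U s)) y) ≤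
      210 * K ^ 2 / R ^ 2 * (1 / nr y) + 1 / 2 * mor s y := by
  have hm : 0 ≤ mor s y := by
    rw [pin_mor hs]
    have := pin_fpos (pin_qpos hs y)
    positivity
  have h0 : 0 ≤ nr y := Real.sqrt_nonneg _
  by_cases hy : nr y < R
  · have h1 : ∑ m, 1 / 2 * pin_D (g m) (pin_D (g m) (pin_U s)) y = -(1 / 2 * mor s y) := by
      rw [← Finset.mul_sum, Finset.sum_congr rfl (fun m _ => PINM_inner (hg m) y hy), pin_lap hs,
        pin_mor hs]
      ring
    rw [h1, neg_neg]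
    have : 0 ≤ 210 * K ^ 2 / R ^ 2 * (1 / nr y) := by positivity
    linarith
  · push Not at hy
    have h1 : ∀ m, -(1 / 2 * pin_D (g m) (pin_D (g m) (pin_U s)) y) ≤
        70 * K ^ 2 / R ^ 2 * (1 / nr y) := by
      intro m
      have h2 := pin_out hs hR (h m) y hy
      have h3 := neg_abs_le (pin_D (g m) (pin_D (g m) (pin_U s)) y)
      have h4 : 70 * K ^ 2 / R ^ 2 * (1 / nr y) = 1 / 2 * (140 * K ^ 2 / R ^ 2 * (1 / nr y)) := by
        ring
      rw [h4]
      linarith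
    rw [← Finset.sum_neg_distrib]
    calc _ ≤ ∑ m : Fin 3, 70 * K ^ 2 / R ^ 2 * (1 / nr y) := Finset.sum_le_sum fun m _ => h1 m
      _ = 210 * K ^ 2 / R ^ 2 * (1 / nr y) := by simp; ring
      _ ≤ _ := by linarith

lemma PINM_pt {g : Fin 3 → R3 → ℝ} {K R s : ℝ} {a : R3} (hs : 0 < s) (hR : 0 < R)
    (h : ∀ m, Scale (g m) K R)
    (hg : ∀ m y, nr (y - a) < R → ∀ i, pd i (g m) y = if i = m then 1 else 0) (y : R3) :
    -(∑ m, 1 / 2 * pin_D (g m) (pin_D (g m) (PINM_W a s)) y) ≤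
      210 * K ^ 2 / R ^ 2 * (1 / nr (y - a)) + 1 / 2 * mor s (y - a) := by
  simp only [PINM_DD]
  refine PINM_pt0 (g := fun m z => g m (z + a)) hs hR (fun m => PINM_scale (h m) a) ?_ (y - a)
  intro m z hz i
  rw [PINM_pda]
  refine hg m (z + a) ?_ i
  rwa [add_sub_cancel_right]

lemma PINM_ae (n : ℕ) (a : R3) : ∀ᵐ x : Cf n, ∀ k, x k ≠ a := by
  rw [ae_all_iff]
  intro k
  exact Measure.ae_eval_ne (μ := fun _ : Fin n => (volume : Measure R3)) k a

lemma PINM_int (h3 : ST_INTM) {n : ℕ} (a : R3) {v w : Cf n → ℝ} (hv : ContDiff ℝ (⊤ : ℕ∞) v)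
    (hvs : HasCompactSupport v) (hw : ContDiff ℝ (⊤ : ℕ∞) w) (hws : HasCompactSupport w) :
    Integrable (fun x : Cf n => (∑ k, 1 / nr (x k - a)) * (v x * w x)) := by
  have h := (h3 n 1 (fun _ => a) (fun _ => 1) v w hv hvs hw hws).1
  refine h.congr (ae_of_all _ fun x => ?_)
  simp [pot]

lemma PINM_lim (h3 : ST_INTM) {n : ℕ} (a : R3) {v w : Cf n → ℝ} (hv : ContDiff ℝ (⊤ : ℕ∞) v)
    (hvs : HasCompactSupport v) (hw : ContDiff ℝ (⊤ : ℕ∞) w) (hws : HasCompactSupport w) :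
    Tendsto (fun j : ℕ => ∫ x, pin_S (PINM_W a (1 / ((j : ℝ) + 1))) x * (v x * w x)) atTop
      (nhds (∫ x : Cf n, (∑ k, 1 / nr (x k - a)) * (v x * w x))) := by
  have hs : ∀ j : ℕ, (0 : ℝ) < 1 / ((j : ℝ) + 1) := fun j => by positivity
  refine tendsto_integral_of_dominated_convergence
    (fun x => 3 / 2 * |(∑ k, 1 / nr (x k - a)) * (v x * w x)|) (fun j => ?_) ?_ (fun j => ?_) ?_
  · exact (((pin_smS (PINM_smW a (hs j))).continuous).mul
      (hv.continuous.mul hw.continuous)).aestronglyMeasurable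
  · exact (PINM_int h3 a hv hvs hw hws).abs.const_mul _
  · filter_upwards [PINM_ae n a] with x hx
    have b1 : 0 ≤ pin_S (PINM_W a (1 / ((j : ℝ) + 1))) x :=
      Finset.sum_nonneg fun k _ => (pin_Ub (hs j) (sub_ne_zero.2 (hx k))).1
    have b2 : pin_S (PINM_W a (1 / ((j : ℝ) + 1))) x ≤ 3 / 2 * ∑ k, 1 / nr (x k - a) := by
      unfold pin_S
      rw [Finset.mul_sum]
      exact Finset.sum_le_sum fun k _ => (pin_Ub (hs j) (sub_ne_zero.2 (hx k))).2
    have b3 : 0 ≤ ∑ k, 1 / nr (x k - a) := by linarith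
    rw [Real.norm_eq_abs, abs_mul, abs_mul (∑ k, 1 / nr (x k - a)), abs_of_nonneg b1,
      abs_of_nonneg b3, ← mul_assoc]
    exact mul_le_mul_of_nonneg_right b2 (abs_nonneg _)
  · filter_upwards [PINM_ae n a] with x hx
    refine Tendsto.mul_const _ ?_
    unfold pin_S
    exact tendsto_finsetSum _ fun k _ => pin_Ul (sub_ne_zero.2 (hx k))

theorem st_PINM (h1 : ST_PAN) (h2 : ST_STB) (h3 : ST_INTM) (_ : ST_HA3) : ST_PINM := by
  refine ⟨210, by norm_num, ?_⟩
  intro n g K R B a u hsc hR hin hu hB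
  have hP := fun m => (h2 n (g m) u (hsc m).sm hu).2.1
  have hPP := fun m => (h2 n (g m) (fun s => Pg (g m) (u s)) (hsc m).sm (hP m)).2.1
  have lim : Tendsto (fun j : ℕ =>
      -(∑ m, ((∑ s, ∫ x, pin_S (PINM_W a (1 / ((j : ℝ) + 1))) x * Pg (g m) (u s) x ^ 2) +
        ∑ s, ∫ x, pin_S (PINM_W a (1 / ((j : ℝ) + 1))) x *
          (Pg (g m) (Pg (g m) (u s)) x * u s x)))) atTop
      (nhds (-(∑ m, (one (fun y => 1 / nr (y - a)) (fun s => Pg (g m) (u s)) +
        (∑ s, ∫ x, (∑ k, 1 / nr (x k - a)) * (Pg (g m) (Pg (g m) (u s)) x * u s x)))))) := by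
    refine Tendsto.neg (tendsto_finsetSum _ fun m _ =>
      Tendsto.add (tendsto_finsetSum _ fun s _ => ?_) (tendsto_finsetSum _ fun s _ => ?_))
    · have := PINM_lim h3 a (hP m s).1 (hP m s).2 (hP m s).1 (hP m s).2
      simp only [← pow_two] at this
      exact this
    · exact PINM_lim h3 a (hPP m s).1 (hPP m s).2 (hu s).1 (hu s).2
  refine le_of_tendsto' lim fun j => ?_
  have hs0 : (0 : ℝ) < 1 / ((j : ℝ) + 1) := by positivity
  generalize 1 / ((j : ℝ) + 1) = s0 at hs0 ⊢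
  have e1 : ∀ m : Fin 3, ((∑ s, ∫ x, pin_S (PINM_W a s0) x * Pg (g m) (u s) x ^ 2) +
        ∑ s, ∫ x, pin_S (PINM_W a s0) x * (Pg (g m) (Pg (g m) (u s)) x * u s x)) =
      ∑ s, 1 / 2 * ∫ x, pin_S (pin_D (g m) (pin_D (g m) (PINM_W a s0))) x * u s x ^ 2 := by
    intro m
    rw [← Finset.sum_add_distrib]
    exact Finset.sum_congr rfl fun s _ =>
      pin_id h1 h2 (hsc m).sm (PINM_smW a hs0) (hu s).1 (hu s).2
  rw [Finset.sum_congr rfl (fun m _ => e1 m), Finset.sum_comm]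
  have e2 : ∀ s, -(∑ m : Fin 3, 1 / 2 * ∫ x, pin_S (pin_D (g m) (pin_D (g m) (PINM_W a s0))) x *
      u s x ^ 2) ≤ 210 * K ^ 2 / R ^ 2 * (∫ x, (∑ k, 1 / nr (x k - a)) * u s x ^ 2) +
        1 / 2 * ∫ x, (∑ k, mor s0 (x k - a)) * u s x ^ 2 := by
    intro s
    have hcu := (hu s).1.continuous
    have i1 : ∀ m, Integrable (fun x => pin_S (pin_D (g m) (pin_D (g m) (PINM_W a s0))) x *
        u s x ^ 2) := by
      intro m
      have hc := (pin_smS (n := n) (pin_smD (hsc m).sm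
        (pin_smD (hsc m).sm (PINM_smW a hs0)))).continuous
      refine (pin_ii (hc.mul hcu) hcu (hu s).2).congr (ae_of_all _ fun x => ?_)
      simp only [Pi.mul_apply]
      ring
    have i2 : Integrable (fun x : Cf n => (∑ k, 1 / nr (x k - a)) * u s x ^ 2) := by
      refine (PINM_int h3 a (hu s).1 (hu s).2 (hu s).1 (hu s).2).congr
        (ae_of_all _ fun x => ?_)
      simp only
      ring
    have i3 : Integrable (fun x : Cf n => (∑ k, mor s0 (x k - a)) * u s x ^ 2) := by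
      have hm : Continuous (fun x : Cf n => ∑ k, mor s0 (x k - a)) := by
        have hm1 : Continuous (mor s0) := by
          have : mor s0 = fun y => 15 / 2 * s0 ^ 4 * pin_f (pin_q s0 y) ^ 7 :=
            funext fun y => pin_mor hs0 y
          rw [this]
          have := (pin_smf hs0).continuous
          fun_prop
        refine continuous_finsetSum _ fun k _ => hm1.comp ?_
        fun_prop
      refine (pin_ii (hm.mul hcu) hcu (hu s).2).congr (ae_of_all _ fun x => ?_)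
      simp only [Pi.mul_apply]
      ring
    have l1 : -(∑ m : Fin 3, 1 / 2 * ∫ x, pin_S (pin_D (g m) (pin_D (g m) (PINM_W a s0))) x *
        u s x ^ 2) = ∫ x, -(∑ m : Fin 3, 1 / 2 *
          (pin_S (pin_D (g m) (pin_D (g m) (PINM_W a s0))) x * u s x ^ 2)) := by
      rw [integral_neg, integral_finsetSum _ (fun m _ => (i1 m).const_mul _)]
      simp only [integral_const_mul]
    have l2 : 210 * K ^ 2 / R ^ 2 * (∫ x, (∑ k, 1 / nr (x k - a)) * u s x ^ 2) +
        1 / 2 * (∫ x, (∑ k, mor s0 (x k - a)) * u s x ^ 2) =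
        ∫ x, (210 * K ^ 2 / R ^ 2 * ((∑ k, 1 / nr (x k - a)) * u s x ^ 2) +
          1 / 2 * ((∑ k, mor s0 (x k - a)) * u s x ^ 2)) := by
      rw [integral_add (i2.const_mul _) (i3.const_mul _), integral_const_mul,
        integral_const_mul]
    rw [l1, l2]
    refine integral_mono (integrable_finsetSum _ fun m _ => (i1 m).const_mul _).neg
      ((i2.const_mul _).add (i3.const_mul _)) (fun x => ?_)
    simp only
    have hp : ∑ k, -(∑ m, 1 / 2 * pin_D (g m) (pin_D (g m) (PINM_W a s0)) (x k)) ≤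
        ∑ k, (210 * K ^ 2 / R ^ 2 * (1 / nr (x k - a)) + 1 / 2 * mor s0 (x k - a)) :=
      Finset.sum_le_sum fun k _ => PINM_pt hs0 hR hsc hin (x k)
    have q1 : -(∑ m : Fin 3, 1 / 2 *
        (pin_S (pin_D (g m) (pin_D (g m) (PINM_W a s0))) x * u s x ^ 2)) =
        (∑ k, -(∑ m, 1 / 2 * pin_D (g m) (pin_D (g m) (PINM_W a s0)) (x k))) * u s x ^ 2 := by
      unfold pin_S
      rw [Finset.sum_neg_distrib, Finset.sum_comm, neg_mul, Finset.sum_mul]
      congr 1
      refine Finset.sum_congr rfl fun m _ => ?_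
      rw [← Finset.mul_sum]
      ring
    have q2 : 210 * K ^ 2 / R ^ 2 * ((∑ k, 1 / nr (x k - a)) * u s x ^ 2) +
        1 / 2 * ((∑ k, mor s0 (x k - a)) * u s x ^ 2) =
        (∑ k, (210 * K ^ 2 / R ^ 2 * (1 / nr (x k - a)) + 1 / 2 * mor s0 (x k - a))) * u s x ^ 2 := by
      rw [Finset.sum_add_distrib, ← Finset.mul_sum, ← Finset.mul_sum]
      ring
    rw [q1, q2]
    exact mul_le_mul_of_nonneg_right hp (by positivity)
  have e3 := hB s0 hs0
  unfold one at e3 ⊢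
  rw [← Finset.sum_neg_distrib]
  calc _ ≤ ∑ s, (210 * K ^ 2 / R ^ 2 * (∫ x, (∑ k, 1 / nr (x k - a)) * u s x ^ 2) +
        1 / 2 * ∫ x, (∑ k, mor s0 (x k - a)) * u s x ^ 2) := Finset.sum_le_sum fun s _ => e2 s
    _ = 210 * K ^ 2 / R ^ 2 * (∑ s, ∫ x, (∑ k, 1 / nr (x k - a)) * u s x ^ 2) +
        1 / 2 * ∑ s, ∫ x, (∑ k, mor s0 (x k - a)) * u s x ^ 2 := by
      rw [Finset.sum_add_distrib, ← Finset.mul_sum, ← Finset.mul_sum]
    _ ≤ _ := by linarith

end Pool.Agent.Helper95.PW
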